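import Pool.Agent.N805.JG.Stm

set_option autoImplicit false

open MeasureTheory Filter Topology

namespace Pool.Agent.N342.JG

open Pool.Agent.N805.JG

section

variable {ι : Type} {L : Filter ι} {P Q : ι → Measure (ℕ → ℝ)}

theorem integ (hI : S_INT) (hG : Good L P) (I : Finset ℕ) (f : (ℕ → ℝ) → ℝ) (hm : Measurable f)
    (C : ℝ) (k : ℕ) (hb : ∀ x, |f x| ≤ C * ∏ i ∈ I, (1 + |x i|) ^ k) (j : ι) :
    Integrable f (P j) :=
  (((hI hG I k).1 j).const_mul C).mono' hm.aestronglyMeasurable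
    (Eventually.of_forall fun x => by rw [Real.norm_eq_abs]; exact hb x)

theorem meas_prod (I : Finset ℕ) (g : ℕ → ℝ → ℝ) (hg : ∀ i, Measurable (g i)) :
    Measurable fun x : ℕ → ℝ => ∏ i ∈ I, g i (x i) :=
  Finset.measurable_prod I fun i _ => (hg i).comp (measurable_pi_apply i)

theorem bd_max (T x : ℝ) (hT : 0 ≤ T) : |max (T - x) 0| ≤ (1 + T) * (1 + |x|) := by
  rw [abs_of_nonneg (le_max_right _ _)]
  have h1 := neg_abs_le x
  have h2 := abs_nonneg x
  refine max_le ?_ (by positivity)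
  nlinarith

theorem bd_sub (T x : ℝ) (hT : 0 ≤ T) : |T - x| ≤ (1 + T) * (1 + |x|) := by
  have h2 := abs_nonneg x
  calc |T - x| ≤ |T| + |x| := abs_sub T x
    _ = T + |x| := by rw [abs_of_nonneg hT]
    _ ≤ _ := by nlinarith

theorem bd_prod (I : Finset ℕ) (g : ℕ → ℝ → ℝ) (c : ℕ → ℝ) (hg : ∀ i x, |g i x| ≤ c i * (1 + |x|))
    (x : ℕ → ℝ) : |∏ i ∈ I, g i (x i)| ≤ (∏ i ∈ I, c i) * ∏ i ∈ I, (1 + |x i|) ^ 1 := by
  rw [Finset.abs_prod, ← Finset.prod_mul_distrib]
  refine Finset.prod_le_prod (fun i _ => abs_nonneg _) fun i _ => ?_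
  rw [pow_one]
  exact hg i (x i)

/-- the error of the truncation -/
theorem trunc (I : Finset ℕ) (K : ℝ) (hK : 1 ≤ K) (x : ℕ → ℝ) (hx : ∀ i, 0 ≤ x i) :
    |∏ i ∈ I, max (K - x i) 0 - ∏ i ∈ I, (K - x i)| ≤
      1 / K * ∏ i ∈ I, (1 + |x i|) ^ (I.card + 1) := by
  have hpos : 0 ≤ 1 / K * ∏ i ∈ I, (1 + |x i|) ^ (I.card + 1) := by positivity
  by_cases h : ∀ i ∈ I, x i ≤ K
  · have : ∏ i ∈ I, max (K - x i) 0 = ∏ i ∈ I, (K - x i) :=
      Finset.prod_congr rfl fun i hi => max_eq_left (by linarith [h i hi])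
    rw [this, sub_self, abs_zero]
    exact hpos
  · push Not at h
    obtain ⟨i₁, hi₁, hlt⟩ := h
    obtain ⟨i₀, hi₀, hmax⟩ := Finset.exists_max_image I x ⟨i₁, hi₁⟩
    have hi0K : K < x i₀ := lt_of_lt_of_le hlt (hmax i₁ hi₁)
    have h0 : ∏ i ∈ I, max (K - x i) 0 = 0 :=
      Finset.prod_eq_zero hi₀ (max_eq_right (by linarith))
    rw [h0, zero_sub, abs_neg, Finset.abs_prod]
    have hm0 : 0 < x i₀ := by linarith
    have h1 : ∏ i ∈ I, |K - x i| ≤ x i₀ ^ I.card := by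
      rw [← Finset.prod_const]
      refine Finset.prod_le_prod (fun i _ => abs_nonneg _) fun i hi => ?_
      rw [abs_le]
      have := hmax i hi
      have := hx i
      constructor <;> linarith
    have h2 : x i₀ ^ I.card ≤ 1 / K * x i₀ ^ (I.card + 1) := by
      rw [pow_succ, one_div, inv_mul_eq_div, le_div_iff₀ (by linarith)]
      exact mul_le_mul_of_nonneg_left hi0K.le (by positivity)
    have h3 : x i₀ ^ (I.card + 1) ≤ ∏ i ∈ I, (1 + |x i|) ^ (I.card + 1) := by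
      rw [← Finset.mul_prod_erase I _ hi₀]
      have h4 : 1 ≤ ∏ i ∈ I.erase i₀, (1 + |x i|) ^ (I.card + 1) := by
        have h6 : ∏ i ∈ I.erase i₀, (1 : ℝ) ≤ ∏ i ∈ I.erase i₀, (1 + |x i|) ^ (I.card + 1) := by
          refine Finset.prod_le_prod (fun i _ => zero_le_one) fun i _ => ?_
          refine one_le_pow₀ ?_
          linarith [abs_nonneg (x i)]
        rwa [Finset.prod_const_one] at h6
      have h5 : x i₀ ^ (I.card + 1) ≤ (1 + |x i₀|) ^ (I.card + 1) := by
        refine pow_le_pow_left₀ hm0.le ?_ _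
        rw [abs_of_pos hm0]
        linarith
      calc x i₀ ^ (I.card + 1) ≤ (1 + |x i₀|) ^ (I.card + 1) := h5
        _ = (1 + |x i₀|) ^ (I.card + 1) * 1 := (mul_one _).symm
        _ ≤ _ := mul_le_mul_of_nonneg_left h4 (by positivity)
    refine h1.trans (h2.trans ?_)
    exact mul_le_mul_of_nonneg_left h3 (by positivity)

theorem nn_all (hG : Good L P) (j : ι) : ∀ᵐ x ∂(P j), ∀ i, 0 ≤ x i :=
  ae_all_iff.2 fun i => hG.nn j i

theorem trunc_int (hI : S_INT) (hG : Good L P) (I : Finset ℕ) : ∃ C : ℝ, 0 ≤ C ∧ ∀ K : ℝ, 1 ≤ K →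
    ∀ᶠ j in L, |∫ x, ∏ i ∈ I, max (K - x i) 0 ∂(P j) - ∫ x, ∏ i ∈ I, (K - x i) ∂(P j)| ≤ C / K := by
  obtain ⟨h1, C, hC⟩ := hI hG I (I.card + 1)
  refine ⟨max C 0, le_max_right _ _, fun K hK => ?_⟩
  filter_upwards [hC] with j hj
  have hK0 : 0 ≤ K := by linarith
  have i1 : Integrable (fun x : ℕ → ℝ => ∏ i ∈ I, max (K - x i) 0) (P j) :=
    integ hI hG I _ (meas_prod I (fun _ t => max (K - t) 0) fun _ => by fun_prop) _ 1
      (bd_prod I (fun _ t => max (K - t) 0) (fun _ => 1 + K) fun _ t => bd_max K t hK0) j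
  have i2 : Integrable (fun x : ℕ → ℝ => ∏ i ∈ I, (K - x i)) (P j) :=
    integ hI hG I _ (meas_prod I (fun _ t => K - t) fun _ => by fun_prop) _ 1
      (bd_prod I (fun _ t => K - t) (fun _ => 1 + K) fun _ t => bd_sub K t hK0) j
  rw [← integral_sub i1 i2]
  calc |∫ x, (∏ i ∈ I, max (K - x i) 0 - ∏ i ∈ I, (K - x i)) ∂(P j)|
      ≤ ∫ x, |∏ i ∈ I, max (K - x i) 0 - ∏ i ∈ I, (K - x i)| ∂(P j) := abs_integral_le_integral_abs
    _ ≤ ∫ x, 1 / K * ∏ i ∈ I, (1 + |x i|) ^ (I.card + 1) ∂(P j) := by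
        refine integral_mono_ae (i1.sub i2).abs ((h1 j).const_mul _) ?_
        filter_upwards [nn_all hG j] with x hx
        exact trunc I K hK x hx
    _ = 1 / K * ∫ x, ∏ i ∈ I, (1 + |x i|) ^ (I.card + 1) ∂(P j) := integral_const_mul _ _
    _ ≤ 1 / K * max C 0 := mul_le_mul_of_nonneg_left (hj.trans (le_max_left _ _)) (by positivity)
    _ = max C 0 / K := by ring

theorem expand (I : Finset ℕ) (K : ℝ) (x : ℕ → ℝ) : ∏ i ∈ I, (K - x i) =
    ∑ J ∈ I.powerset, ((-1) ^ J.card * K ^ (I \ J).card) * ∏ i ∈ J, x i := by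
  have h1 : ∏ i ∈ I, (K - x i) = ∏ i ∈ I, ((-1) * x i + K) :=
    Finset.prod_congr rfl fun i _ => by ring
  rw [h1, Finset.prod_add]
  refine Finset.sum_congr rfl fun J _ => ?_
  rw [Finset.prod_mul_distrib, Finset.prod_const, Finset.prod_const]
  ring

theorem int_expand (hI : S_INT) (hG : Good L P) (I : Finset ℕ) (K : ℝ) (j : ι) :
    ∫ x, ∏ i ∈ I, (K - x i) ∂(P j) =
      ∑ J ∈ I.powerset, ((-1) ^ J.card * K ^ (I \ J).card) * ∫ x, ∏ i ∈ J, x i ∂(P j) := by
  simp only [expand]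
  rw [integral_finsetSum]
  · exact Finset.sum_congr rfl fun J _ => integral_const_mul _ _
  · intro J _
    refine Integrable.const_mul ?_ _
    exact integ hI hG J _ (meas_prod J (fun _ t => t) fun _ => measurable_id) _ 1
      (bd_prod J (fun _ t => t) (fun _ => 1) fun _ t => by rw [one_mul]; linarith) j

end

theorem BACK : S_BACK := by
  intro hI ι L P Q hP hQ r hr hLow I hcard H hM T hT
  -- the polynomials
  have hpol : ∀ K : ℝ, Tendsto (fun j => D P Q j (fun x => ∏ i ∈ I, (K - x i))) L (𝓝 0) := by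
    intro K
    have h1 : (fun j => D P Q j (fun x => ∏ i ∈ I, (K - x i))) = fun j =>
        ∑ J ∈ I.powerset, ((-1) ^ J.card * K ^ (I \ J).card) * D P Q j (fun x => ∏ i ∈ J, x i) := by
      funext j
      unfold D
      rw [int_expand hI hP, int_expand hI hQ, ← Finset.sum_sub_distrib]
      exact Finset.sum_congr rfl fun J _ => by ring
    rw [h1]
    have h2 : (0 : ℝ) = ∑ J ∈ I.powerset, ((-1) ^ J.card * K ^ (I \ J).card) * 0 := by simp
    rw [h2]
    refine tendsto_finsetSum _ fun J hJ => Tendsto.const_mul _ ?_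
    rw [Finset.mem_powerset] at hJ
    rcases eq_or_ne J I with rfl | hne
    · exact hM
    · have hlt : J.card < r := by
        rw [← hcard]
        exact Finset.card_lt_card (lt_of_le_of_ne hJ hne)
      have := hLow J hlt fun _ => 1
      simpa only [pow_one] using this
  rw [tendsto_order]
  constructor
  · intro a ha
    obtain ⟨C₁, hC₁, h₁⟩ := trunc_int hI hP I
    obtain ⟨C₂, hC₂, h₂⟩ := trunc_int hI hQ I
    have hε : 0 < -a := by linarith
    obtain ⟨K, hK⟩ : ∃ K : ℝ, K = 1 + ∑ i ∈ I, T i + (C₁ + C₂) * (4 / -a) := ⟨_, rfl⟩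
    have hsum0 : 0 ≤ ∑ i ∈ I, T i := Finset.sum_nonneg fun i _ => hT i
    have hq0 : 0 ≤ (C₁ + C₂) * (4 / -a) := by positivity
    have hK1 : 1 ≤ K := by linarith
    have hKC : (C₁ + C₂) / K ≤ -a / 4 := by
      rw [div_le_iff₀ (by linarith)]
      have h3 : (C₁ + C₂) * (4 / -a) ≤ K := by linarith
      have ha0 : a ≠ 0 := ha.ne
      have hna : -a ≠ 0 := hε.ne'
      calc C₁ + C₂ = (-a / 4) * ((C₁ + C₂) * (4 / -a)) := by
            have h9 : (-a / 4) * (4 / -a) = 1 := by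
              rw [div_mul_div_comm, mul_comm, div_self (mul_ne_zero (by norm_num) hna)]
            calc C₁ + C₂ = (C₁ + C₂) * ((-a / 4) * (4 / -a)) := by rw [h9, mul_one]
              _ = _ := by ring
        _ ≤ -a / 4 * K := mul_le_mul_of_nonneg_left h3 (by positivity)
    have hTK : ∀ i ∈ I, T i ≤ K := by
      intro i hi
      have := Finset.single_le_sum (f := T) (fun i _ => hT i) hi
      linarith
    have hH := H T (fun i => max (T i) K) (fun i => ⟨hT i, le_max_left _ _⟩) (-a / 4) (by linarith)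
    have hp := (tendsto_order.1 (hpol K)).1 (-(-a / 4)) (by linarith)
    filter_upwards [hH, hp, h₁ K hK1, h₂ K hK1] with j j1 j2 j3 j4
    have e1 : (fun x : ℕ → ℝ => ∏ i ∈ I, max (max (T i) K - x i) 0) =
        fun x => ∏ i ∈ I, max (K - x i) 0 := by
      funext x
      exact Finset.prod_congr rfl fun i hi => by rw [max_eq_right (hTK i hi)]
    rw [e1] at j1
    unfold D at j1 j2 ⊢
    have e2 : C₁ / K + C₂ / K = (C₁ + C₂) / K := by ring
    have j3' := (abs_le.1 j3).1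
    have j4' := (abs_le.1 j4).2
    linarith
  · intro b hb
    have hH := H (fun _ => 0) T (fun i => ⟨le_rfl, hT i⟩) (b / 2) (by linarith)
    filter_upwards [hH] with j hj
    have h0 : ∀ (R : ι → Measure (ℕ → ℝ)), Good L R →
        ∫ x, ∏ i ∈ I, max ((0 : ℝ) - x i) 0 ∂(R j) = 0 := by
      intro R hR
      refine integral_eq_zero_of_ae ?_
      filter_upwards [nn_all hR j] with x hx
      obtain ⟨i₀, hi₀⟩ : I.Nonempty := by
        rw [← Finset.card_pos, hcard]
        omega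
      exact Finset.prod_eq_zero hi₀ (max_eq_right (by linarith [hx i₀]))
    have h1 : D P Q j (fun x => ∏ i ∈ I, max ((0 : ℝ) - x i) 0) = 0 := by
      unfold D
      rw [h0 P hP, h0 Q hQ, sub_zero]
    rw [h1] at hj
    linarith

end Pool.Agent.N342.JG
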